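import Mathlib

set_option autoImplicit false

namespace Pool.Agent.Results.MP_3aa442_co.Cex

open Matrix

abbrev Mat (n : ℕ) : Type := Matrix (Fin n) (Fin n) ℝ

/-- Symmetric doubly stochastic matrices. -/
def DSS (n : ℕ) : Set (Mat n) :=
  {A | Aᵀ = A ∧ (∀ i j, 0 ≤ A i j) ∧ (∀ i, ∑ j, A i j = 1) ∧ ∀ j, ∑ i, A i j = 1}

/-- Zero diagonal, off-diagonal entries `1 / (n - 1)`. -/
noncomputable def Cm (n : ℕ) : Mat n := Matrix.of fun i j => if i = j then 0 else 1 / ((n : ℝ) - 1)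

/-- Determined by its spectrum among symmetric doubly stochastic matrices. -/
def IsDS {n : ℕ} (A : Mat n) : Prop :=
  ∀ B ∈ DSS n, IsConj A B →
    ∃ σ : Equiv.Perm (Fin n), B = (σ.permMatrix ℝ)ᵀ * A * σ.permMatrix ℝ

noncomputable def A0 : Mat 4 := !![1/2, 1/2, 0, 0; 1/2, 1/2, 0, 0; 0, 0, 0, 1; 0, 0, 1, 0]

noncomputable def P1 : Mat 4 := !![1, 0, 0, 0; 0, 1, 0, 0; 0, 0, 0, 1; 0, 0, 1, 0]

noncomputable def P2 : Mat 4 := !![0, 1, 0, 0; 1, 0, 0, 0; 0, 0, 0, 1; 0, 0, 1, 0]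

theorem mA : A0 ∈ DSS 4 := by
  refine ⟨?_, fun i j => ?_, fun i => ?_, fun i => ?_⟩
  · ext i j; fin_cases i <;> fin_cases j <;> simp [A0]
  · fin_cases i <;> fin_cases j <;> simp [A0]
  · fin_cases i <;> simp [A0, Fin.sum_univ_four] <;> norm_num
  · fin_cases i <;> simp [A0, Fin.sum_univ_four] <;> norm_num

theorem m1 : P1 ∈ DSS 4 := by
  refine ⟨?_, fun i j => ?_, fun i => ?_, fun i => ?_⟩
  · ext i j; fin_cases i <;> fin_cases j <;> simp [P1]
  · fin_cases i <;> fin_cases j <;> simp [P1]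
  · fin_cases i <;> simp [P1, Fin.sum_univ_four]
  · fin_cases i <;> simp [P1, Fin.sum_univ_four]

theorem m2 : P2 ∈ DSS 4 := by
  refine ⟨?_, fun i j => ?_, fun i => ?_, fun i => ?_⟩
  · ext i j; fin_cases i <;> fin_cases j <;> simp [P2]
  · fin_cases i <;> fin_cases j <;> simp [P2]
  · fin_cases i <;> simp [P2, Fin.sum_univ_four]
  · fin_cases i <;> simp [P2, Fin.sum_univ_four]

theorem notext : A0 ∉ (DSS 4).extremePoints ℝ := by
  intro h
  have := h.2 m1 m2 ⟨1/2, 1/2, by norm_num, by norm_num, by norm_num, by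
    ext i j; fin_cases i <;> fin_cases j <;> simp [A0, P1, P2] <;> norm_num⟩
  have := congrFun (congrFun this 0) 0
  simp [A0, P1] at this

theorem unit_row {n : ℕ} (b : Fin n → ℝ) (h0 : ∀ j, 0 ≤ b j) (h1 : ∑ j, b j = 1)
    (h2 : ∑ j, b j * b j = 1) : ∃ j, b j = 1 := by
  have hle : ∀ j, b j ≤ 1 := fun j => h1 ▸ Finset.single_le_sum (fun j _ => h0 j) (Finset.mem_univ j)
  have h3 : ∑ j, b j * (1 - b j) = 0 := by
    simp only [mul_sub, mul_one, Finset.sum_sub_distrib, h1, h2, sub_self]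
  rw [Finset.sum_eq_zero_iff_of_nonneg fun j _ => mul_nonneg (h0 j) (sub_nonneg.2 (hle j))] at h3
  by_contra hc
  push Not at hc
  rw [Finset.sum_eq_zero fun j hj =>
    (mul_eq_zero.1 (h3 j hj)).resolve_right (sub_ne_zero.2 (hc j).symm)] at h1
  exact zero_ne_one h1

theorem half (a x y z : ℝ) (hx : 0 ≤ x) (hy : 0 ≤ y) (hz : 0 ≤ z) (h1 : a + x + y + z = 1)
    (h2 : a * a + x * x + y * y + z * z = a) : a = 1 ∨ a ≤ 1 / 2 := by
  by_cases h : a = 1
  · exact Or.inl h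
  right
  have h3 : 0 < 1 - a := lt_of_le_of_ne (by linarith) (sub_ne_zero.2 (Ne.symm h)).symm
  by_contra hc
  push Not at hc
  have : 1 - a = x + y + z := by linarith
  nlinarith [mul_nonneg hx hy, mul_nonneg hx hz, mul_nonneg hy hz, mul_pos h3 (sub_pos.2 hc)]

theorem offdiag (B : Mat 4) (hB : B ∈ DSS 4) (t1 : B.trace = 1) (t2 : (B * B).trace = 3)
    (h4 : B * B * (B * B) = B * B) : ∃ r s, r ≠ s ∧ B r s = 1 := by
  obtain ⟨hs, h0, h1, -⟩ := hB
  have hs' : ∀ i j, B i j = B j i := fun i j => (congrFun (congrFun hs i) j).symm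
  have u : ∀ r, (B * B) r r = 1 → ∃ s, B r s = 1 := fun r hr =>
    unit_row (B r) (h0 r) (h1 r) (by
      rw [Matrix.mul_apply] at hr
      rw [← hr]
      exact Finset.sum_congr rfl fun j _ => by rw [hs' j r])
  have ms : ∀ i j, (B * B) i j = (B * B) j i := fun i j => by
    simp only [Matrix.mul_apply]
    exact Finset.sum_congr rfl fun k _ => by rw [hs' i k, hs' k j, mul_comm]
  have m0 : ∀ i j, 0 ≤ (B * B) i j := fun i j => by
    rw [Matrix.mul_apply]
    exact Finset.sum_nonneg fun k _ => mul_nonneg (h0 _ _) (h0 _ _)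
  have m1 : ∀ i, ∑ j, (B * B) i j = 1 := fun i => by
    simp only [Matrix.mul_apply]
    rw [Finset.sum_comm]
    simp only [← Finset.mul_sum, h1, mul_one]
  have m2 : ∀ i, ∑ j, (B * B) i j * (B * B) i j = (B * B) i i := fun i => by
    conv_rhs => rw [← h4, Matrix.mul_apply]
    exact Finset.sum_congr rfl fun k _ => by rw [ms k i]
  generalize B * B = M at *
  by_contra hc
  push Not at hc
  have v : ∀ r, M r r = 1 → B r r = 1 := fun r hr => by
    obtain ⟨s, h⟩ := u r hr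
    by_cases e : r = s
    · exact e ▸ h
    · exact (hc r s e h).elim
  simp only [Fin.sum_univ_four] at m1 m2
  simp only [Matrix.trace, Matrix.diag, Fin.sum_univ_four] at t1 t2
  have a0 := half _ _ _ _ (m0 0 1) (m0 0 2) (m0 0 3) (m1 0) (m2 0)
  have a1 := half (M 1 1) _ _ _ (m0 1 0) (m0 1 2) (m0 1 3) (by linarith [m1 1]) (by linarith [m2 1])
  have a2 := half (M 2 2) _ _ _ (m0 2 0) (m0 2 1) (m0 2 3) (by linarith [m1 2]) (by linarith [m2 2])
  have a3 := half (M 3 3) _ _ _ (m0 3 0) (m0 3 1) (m0 3 2) (by linarith [m1 3]) (by linarith [m2 3])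
  have w : ∀ r, (M r r = 1 ∨ M r r ≤ 1 / 2) → (M r r = 1 ∧ B r r = 1 ∨ M r r ≤ 1 / 2) :=
    fun r h => h.imp_left fun h => ⟨h, v r h⟩
  have := h0 0 0
  have := h0 1 1
  have := h0 2 2
  have := h0 3 3
  rcases w 0 a0 with ⟨_, _⟩ | _ <;> rcases w 1 a1 with ⟨_, _⟩ | _ <;>
    rcases w 2 a2 with ⟨_, _⟩ | _ <;> rcases w 3 a3 with ⟨_, _⟩ | _ <;> linarith

theorem ident (B : Mat 4) (hB : B ∈ DSS 4) (t1 : B.trace = 1) (h : B 2 3 = 1) : B = A0 := by
  obtain ⟨hs, h0, h1, -⟩ := hB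
  have hs' : ∀ i j, B i j = B j i := fun i j => (congrFun (congrFun hs i) j).symm
  simp only [Fin.sum_univ_four] at h1
  simp only [Matrix.trace, Matrix.diag, Fin.sum_univ_four] at t1
  have := h1 0; have := h1 1; have := h1 2; have := h1 3
  have := hs' 0 1; have := hs' 0 2; have := hs' 0 3; have := hs' 1 2; have := hs' 1 3
  have := hs' 2 3
  have := h0 2 0; have := h0 2 1; have := h0 2 2; have := h0 3 0; have := h0 3 1; have := h0 3 3
  ext i j
  fin_cases i <;> fin_cases j <;> simp [A0] <;> linarith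

theorem experm : ∀ r s : Fin 4, r ≠ s → ∃ σ : Equiv.Perm (Fin 4), σ 2 = r ∧ σ 3 = s := by
  decide +kernel

theorem isDS : IsDS A0 := by
  intro B hB hc
  have tr : ∀ X Y : Mat 4, IsConj X Y → Y.trace = X.trace := by
    rintro X Y ⟨c, h⟩
    have : Y = c * X * c⁻¹ := by rw [h.eq, Units.mul_inv_cancel_right]
    rw [this, Matrix.trace_units_conj]
  have t1 : B.trace = 1 := by
    rw [tr _ _ hc]; simp [A0, Matrix.trace, Fin.sum_univ_four]; norm_num
  have e2 : A0 * A0 = !![1/2, 1/2, 0, 0; 1/2, 1/2, 0, 0; 0, 0, 1, 0; 0, 0, 0, 1] := by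
    ext i j; fin_cases i <;> fin_cases j <;> simp [A0, Matrix.mul_apply, Fin.sum_univ_four] <;>
      norm_num
  have t2 : (B * B).trace = 3 := by
    have := tr _ _ (hc.pow 2)
    rw [sq, sq, e2] at this
    rw [this]; simp [Matrix.trace, Fin.sum_univ_four]; norm_num
  have h4 : B * B * (B * B) = B * B := by
    obtain ⟨c, h⟩ := hc
    have e4 : A0 * A0 * (A0 * A0) = A0 * A0 := by
      rw [e2]
      ext i j; fin_cases i <;> fin_cases j <;> simp [Matrix.mul_apply, Fin.sum_univ_four] <;>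
        norm_num
    have a := ((h.mul_right h).mul_right (h.mul_right h)).eq
    rw [e4, (h.mul_right h).eq] at a
    exact ((Units.mul_left_inj c).1 a).symm
  obtain ⟨r, s, hrs, h⟩ := offdiag B hB t1 t2 h4
  obtain ⟨σ, rfl, rfl⟩ := experm r s hrs
  have := ident (B.submatrix σ σ) ⟨by rw [Matrix.transpose_submatrix, hB.1],
    fun i j => hB.2.1 _ _, fun i => (Equiv.sum_comp σ (B (σ i))).trans (hB.2.2.1 _),
    fun j => (Equiv.sum_comp σ fun i => B i (σ j)).trans (hB.2.2.2 _)⟩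
    ((Equiv.sum_comp σ fun i => B i i).trans t1) h
  refine ⟨σ, ?_⟩
  rw [Matrix.transpose_permMatrix, Equiv.Perm.permMatrix, Equiv.Perm.permMatrix,
    PEquiv.toMatrix_toPEquiv_mul, PEquiv.mul_toMatrix_toPEquiv, ← this]
  ext i j
  simp

theorem result : ¬ ∀ n : ℕ, 2 ≤ n → ∀ a : ℝ, 0 < a → a ≤ n → ∀ A ∈ DSS n, A.trace = a →
    IsDS A → A ∈ segment ℝ 1 (Cm n) ∨ ∃ P ∈ (DSS n).extremePoints ℝ,
      A ∈ segment ℝ 1 P ∨ A ∈ segment ℝ (Cm n) P := by
  intro h
  have := h 4 (by norm_num) 1 one_pos (by norm_num) A0 mA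
    (by simp [A0, Matrix.trace, Fin.sum_univ_four]; norm_num) isDS
  rcases this with ⟨s, t, hs, ht, hst, e⟩ | ⟨P, hP, ⟨s, t, hs, ht, hst, e⟩ | ⟨s, t, hs, ht, hst, e⟩⟩
  · have e1 := congrFun (congrFun e 2) 2
    have e2 := congrFun (congrFun e 0) 2
    simp [A0, Cm] at e1 e2
    norm_num at e2
    linarith
  · have e1 := congrFun (congrFun e 2) 2
    simp [A0] at e1
    have := mul_nonneg ht (hP.1.2.1 2 2)
    have s0 : s = 0 := by linarith
    have t0 : t = 1 := by linarith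
    rw [s0, t0, zero_smul, zero_add, one_smul] at e
    exact notext (e ▸ hP)
  · have e1 := congrFun (congrFun e 0) 2
    simp [A0, Cm] at e1
    have := mul_nonneg ht (hP.1.2.1 0 2)
    have s0 : s = 0 := by norm_num at e1; linarith
    have t0 : t = 1 := by linarith
    rw [s0, t0, zero_smul, zero_add, one_smul] at e
    exact notext (e ▸ hP)

end Pool.Agent.Results.MP_3aa442_co.Cex
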